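import Pool.Agent.helper88.RL.SpecW

set_option autoImplicit false

/-!
# RL, row VGN: the general near point lemma
-/

namespace Pool.Agent.RL

open Finset Pool.Agent.helper3.FT Pool.Agent.T6 Pool.Agent.RF

/-- rounding -/
theorem VGN_round (z : ℤ) (q M : ℕ) (hq : 1 ≤ q) (hM : 1 ≤ M) (h : nd ((z : ℝ) / q) ≤ 1 / M) :
    ∃ ξ : ℤ, (q : ℤ) ∣ z - ξ ∧ |ξ| * M ≤ q := by
  refine ⟨z - q * round ((z : ℝ) / q), ⟨round ((z : ℝ) / q), by ring⟩, ?_⟩
  have hq' : (0 : ℝ) < q := by exact_mod_cast hq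
  have hM' : (0 : ℝ) < M := by exact_mod_cast hM
  have e : (q : ℝ) * ((z : ℝ) / q) = z := by field_simp
  have h1 : ((z - q * round ((z : ℝ) / q) : ℤ) : ℝ) = q * ((z : ℝ) / q - round ((z : ℝ) / q)) := by
    push_cast
    rw [mul_sub, e]
  have h2 : |((z - q * round ((z : ℝ) / q) : ℤ) : ℝ)| ≤ q * (1 / M) := by
    rw [h1, abs_mul, abs_of_pos hq']
    exact mul_le_mul_of_nonneg_left h hq'.le
  have h3 : |((z - q * round ((z : ℝ) / q) : ℤ) : ℝ)| * M ≤ q := by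
    calc |((z - q * round ((z : ℝ) / q) : ℤ) : ℝ)| * M ≤ (q * (1 / M)) * M :=
          mul_le_mul_of_nonneg_right h2 hM'.le
      _ = q := by field_simp
  exact_mod_cast h3

/-- coordinates -/
def VGN_tf : V4 →+ (Fin 4 → ℤ) := AddMonoidHom.mk' (fun v => ![v.1, v.2.1, v.2.2.1, v.2.2.2]) (by
  intro a b
  funext j
  fin_cases j <;> rfl)

theorem VGN_tf0 (v : V4) : VGN_tf v 0 = v.1 := rfl
theorem VGN_tf1 (v : V4) : VGN_tf v 1 = v.2.1 := rfl
theorem VGN_tf2 (v : V4) : VGN_tf v 2 = v.2.2.1 := rfl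
theorem VGN_tf3 (v : V4) : VGN_tf v 3 = v.2.2.2 := rfl

theorem VGN_inj : Function.Injective VGN_tf := by
  intro v w h
  have h0 := congrFun h 0
  have h1 := congrFun h 1
  have h2 := congrFun h 2
  have h3 := congrFun h 3
  rw [VGN_tf0, VGN_tf0] at h0
  rw [VGN_tf1, VGN_tf1] at h1
  rw [VGN_tf2, VGN_tf2] at h2
  rw [VGN_tf3, VGN_tf3] at h3
  exact Prod.ext h0 (Prod.ext h1 (Prod.ext h2 h3))

theorem VGN_nrm (b V : ℝ) (v : V4) (h : nrm b v ≤ V) (j : Fin 4) : |(VGN_tf v j : ℝ)| ≤ V := by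
  unfold nrm at h
  have h1 := max_le_iff.1 h
  have h2 := max_le_iff.1 h1.1
  have h3 := max_le_iff.1 h1.2
  fin_cases j
  · exact h2.1
  · exact h2.2
  · exact h3.1
  · exact h3.2

theorem VGN_nrm' (b V : ℝ) (v : V4) (h : V ≤ nrm b v) : ∃ j : Fin 4, V ≤ |(VGN_tf v j : ℝ)| := by
  unfold nrm at h
  rw [le_max_iff, le_max_iff, le_max_iff] at h
  rcases h with (h | h) | (h | h)
  · exact ⟨0, h⟩
  · exact ⟨1, h⟩
  · exact ⟨2, h⟩
  · exact ⟨3, h⟩

/-- the points -/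
theorem VGN_ex (m B h : ℕ) (α β γ : ℤ) (hm : 1 ≤ m) (hB : 1 ≤ B) (p : ℤ × ℤ)
    (hp : p ∈ nearPts B B (h * α / (m : ℝ)) (h * β / (m : ℝ)) (h * γ / (m : ℝ))) :
    ∃ x : V4, x.1 = p.1 ∧ x.2.1 = p.2 ∧ NP m B h α β γ x := by
  rw [nearPts, mem_filter, mem_product, mem_Icc, mem_Icc] at hp
  obtain ⟨⟨⟨ha, hb⟩, hc', hd⟩, h1, h2⟩ := hp
  have e1 : 2 * (h * α / (m : ℝ)) * p.1 + h * β / (m : ℝ) * p.2 =
      ((h * (2 * α * p.1 + β * p.2) : ℤ) : ℝ) / (m : ℝ) := by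
    push_cast
    ring
  have e2 : h * β / (m : ℝ) * p.1 + 2 * (h * γ / (m : ℝ)) * p.2 =
      ((h * (β * p.1 + 2 * γ * p.2) : ℤ) : ℝ) / (m : ℝ) := by
    push_cast
    ring
  rw [e1] at h1
  rw [e2] at h2
  obtain ⟨ξ, hξ1, hξ2⟩ := VGN_round _ _ _ hm hB h1
  obtain ⟨Ξ, hΞ1, hΞ2⟩ := VGN_round _ _ _ hm hB h2
  exact ⟨(p.1, p.2, ξ, Ξ), rfl, rfl, abs_le.2 ⟨ha, hb⟩, abs_le.2 ⟨hc', hd⟩, hξ1, hΞ1, hξ2, hΞ2⟩

theorem VGN (hGP : GP_stmt) (hGR : GR_stmt) (hN1 : N1_stmt) (hN2 : N2_stmt) (hN4 : N4_stmt) : VGN_stmt := by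
  classical
  intro m B h δ r α β γ ρ L hm hB hh hδ hρ hL1 hL2
  have hex := VGN_ex m B h α β γ hm hB
  obtain ⟨N, hN⟩ : ∃ N : Finset (ℤ × ℤ), N = nearPts B B (h * α / (m : ℝ)) (h * β / (m : ℝ))
    (h * γ / (m : ℝ)) := ⟨_, rfl⟩
  rw [← hN] at hex ⊢
  choose! fx hx0 hx1 hP using hex
  have hmr : (0 : ℝ) < m := by exact_mod_cast hm
  have hBr : (0 : ℝ) < B := by exact_mod_cast hB
  have hfx : Set.InjOn fx (N : Set (ℤ × ℤ)) := by
    intro p hp p' hp' he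
    exact Prod.ext ((hx0 p hp).symm.trans (by rw [he]; exact hx0 p' hp'))
      ((hx1 p hp).symm.trans (by rw [he]; exact hx1 p' hp'))
  -- `L` is injective on the points
  have hLinj : ∀ x x' : V4, NP m B h α β γ x → NP m B h α β γ x' → L x = L x' → x = x' := by
    intro x x' hx hx' he
    have h1 := (hL2 ![1, -1, 0, 0] ![x, x', x, x] (by
      intro i
      fin_cases i
      · exact hx
      · exact hx'
      · exact hx
      · exact hx)).1 (by
        rw [Fin.sum_univ_four]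
        show (1 : ℤ) • L x + (-1 : ℤ) • L x' + (0 : ℤ) • L x + (0 : ℤ) • L x = 0
        rw [he]
        simp)
    rw [Fin.sum_univ_four] at h1
    have h2 : (1 : ℤ) • x + (-1 : ℤ) • x' + (0 : ℤ) • x + (0 : ℤ) • x = 0 := h1
    have h3 : x - x' = 0 := by
      rw [← h2]
      simp [sub_eq_add_neg]
    exact sub_eq_zero.1 h3
  obtain ⟨fy, hfydef⟩ : ∃ fy : ℤ × ℤ → Fin 4 → ℤ, fy = fun p => VGN_tf (L (fx p)) := ⟨_, rfl⟩
  obtain ⟨fz, hfzdef⟩ : ∃ fz : ℤ × ℤ → Fin 4 → ℤ, fz = fun p => VGN_tf (fx p) := ⟨_, rfl⟩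
  have hfz : Set.InjOn fz (N : Set (ℤ × ℤ)) := by
    intro p hp p' hp' he
    rw [hfzdef] at he
    exact hfx hp hp' (VGN_inj he)
  have hfy : Set.InjOn fy (N : Set (ℤ × ℤ)) := by
    intro p hp p' hp' he
    rw [hfydef] at he
    exact hfx hp hp' (hLinj _ _ (hP p hp) (hP p' hp') (VGN_inj he))
  by_cases hLI : ∃ w : Fin 4 → Fin 4 → ℤ, (∀ i, w i ∈ N.image fz) ∧ LinearIndependent ℤ w
  · left
    obtain ⟨w, hw, hwl⟩ := hLI
    have : NeZero m := ⟨by omega⟩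
    obtain ⟨φ, hφ⟩ : ∃ φ : (Fin 4 → ℤ) →+ ZMod m × ZMod m, ∀ x, φ x =
        (((h * (2 * α * x 0 + β * x 1) - x 2 : ℤ) : ZMod m), ((h * (β * x 0 + 2 * γ * x 1) - x 3 : ℤ) : ZMod m)) := by
      refine ⟨AddMonoidHom.mk' (fun x => (((h * (2 * α * x 0 + β * x 1) - x 2 : ℤ) : ZMod m),
        ((h * (β * x 0 + 2 * γ * x 1) - x 3 : ℤ) : ZMod m))) ?_, fun x => rfl⟩
      intro x y
      refine Prod.ext ?_ ?_
      · show (((h * (2 * α * (x + y) 0 + β * (x + y) 1) - (x + y) 2 : ℤ)) : ZMod m) =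
          ((h * (2 * α * x 0 + β * x 1) - x 2 : ℤ) : ZMod m) + ((h * (2 * α * y 0 + β * y 1) - y 2 : ℤ) : ZMod m)
        rw [← Int.cast_add]
        congr 1
        simp only [Pi.add_apply]
        ring
      · show (((h * (β * (x + y) 0 + 2 * γ * (x + y) 1) - (x + y) 3 : ℤ)) : ZMod m) =
          ((h * (β * x 0 + 2 * γ * x 1) - x 3 : ℤ) : ZMod m) + ((h * (β * y 0 + 2 * γ * y 1) - y 3 : ℤ) : ZMod m)
        rw [← Int.cast_add]
        congr 1
        simp only [Pi.add_apply]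
        ring
    have hsur : Function.Surjective φ := by
      rintro ⟨g1, g2⟩
      obtain ⟨a, ha⟩ := ZMod.intCast_surjective g1
      obtain ⟨c, hc'⟩ := ZMod.intCast_surjective g2
      refine ⟨![0, 0, -a, -c], ?_⟩
      rw [hφ]
      refine Prod.ext ?_ ?_
      · show (((h * (2 * α * 0 + β * 0) - -a : ℤ)) : ZMod m) = g1
        rw [← ha]
        congr 1
        ring
      · show (((h * (β * 0 + 2 * γ * 0) - -c : ℤ)) : ZMod m) = g2
        rw [← hc']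
        congr 1
        ring
    have hmem : ∀ v ∈ N.image fz, φ v = 0 ∧ ∀ j : Fin 4, |(v j : ℝ)| ≤ (![4 * (B : ℝ), 4 * B, m / B, m / B] : Fin 4 → ℝ) j := by
      intro v hv
      rw [mem_image] at hv
      obtain ⟨p, hp, rfl⟩ := hv
      have h1 := hP p hp
      rw [hfzdef]
      refine ⟨?_, ?_⟩
      · rw [hφ]
        refine Prod.ext ?_ ?_
        · exact (ZMod.intCast_zmod_eq_zero_iff_dvd _ _).2 h1.P1
        · exact (ZMod.intCast_zmod_eq_zero_iff_dvd _ _).2 h1.P2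
      · intro j
        fin_cases j
        · show |((fx p).1 : ℝ)| ≤ 4 * (B : ℝ)
          exact_mod_cast h1.u
        · show |((fx p).2.1 : ℝ)| ≤ 4 * (B : ℝ)
          exact_mod_cast h1.v
        · show |((fx p).2.2.1 : ℝ)| ≤ (m : ℝ) / B
          rw [le_div_iff₀ hBr]
          exact_mod_cast h1.s1
        · show |((fx p).2.2.2 : ℝ)| ≤ (m : ℝ) / B
          rw [le_div_iff₀ hBr]
          exact_mod_cast h1.s2
    have key := hGP (ZMod m × ZMod m) φ hsur (![4 * (B : ℝ), 4 * B, m / B, m / B] : Fin 4 → ℝ) w hwl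
      (fun i => hmem _ (hw i)) (N.image fz) hmem
    rw [Fintype.card_prod, ZMod.card, Fin.prod_univ_four, card_image_of_injOn hfz] at key
    have key2 : (11 * (![4 * (B : ℝ), 4 * B, m / B, m / B] : Fin 4 → ℝ) 0) * (11 * (![4 * (B : ℝ), 4 * B, m / B, m / B] : Fin 4 → ℝ) 1) *
        (11 * (![4 * (B : ℝ), 4 * B, m / B, m / B] : Fin 4 → ℝ) 2) * (11 * (![4 * (B : ℝ), 4 * B, m / B, m / B] : Fin 4 → ℝ) 3) =
        234256 * ((m : ℝ) * m) := by
      show (11 * (4 * (B : ℝ))) * (11 * (4 * B)) * (11 * (m / B)) * (11 * (m / B)) = 234256 * ((m : ℝ) * m)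
      field_simp
      norm_num
    rw [key2] at key
    push_cast at key
    exact le_of_mul_le_mul_right key (by positivity)
  · right
    push Not at hLI
    obtain ⟨⟨v0, hv0, hv0G, hv0n⟩, hlam⟩ := hN4 1 δ r le_rfl hδ
    have hlam0 : 0 < lamb 1 δ r := by
      rw [← hv0n]
      have h1 := (hN1 1 le_rfl v0 v0).2.2.2.2.1 hv0
      have h2 : (0 : ℝ) < 1 / 1 ^ 5 := by norm_num
      linarith
    have key := hGR (fun _ => (1 : ℝ)) ρ (lamb 1 δ r) (N.image fy) (fun _ => one_pos) hlam0 hρ ?_ ?_ ?_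
    · rw [card_image_of_injOn hfy] at key
      exact key
    · intro v hv
      rw [mem_image] at hv
      obtain ⟨p, hp, rfl⟩ := hv
      intro j
      rw [mul_one, hfydef]
      exact VGN_nrm 1 ρ _ (hL1 _ (hP p hp)).2 j
    · intro v hv v' hv' hne
      rw [mem_image] at hv hv'
      obtain ⟨p, hp, rfl⟩ := hv
      obtain ⟨p', hp', rfl⟩ := hv'
      have h1 := (hL1 _ (hP p hp)).1
      have h2 := (hL1 _ (hP p' hp')).1
      obtain ⟨-, hadd, -⟩ := hN2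
      have h3 := (hadd δ r _ _ h1 (hadd δ r _ _ h2 h2).2).1
      obtain ⟨z, hz⟩ : ∃ z : V4, z = L (fx p) + -L (fx p') := ⟨_, rfl⟩
      rw [← hz] at h3
      have hz0 : z ≠ 0 := by
        intro h0
        apply hne
        rw [h0] at hz
        have h5 : L (fx p) = L (fx p') := by
          rw [← sub_eq_zero, sub_eq_add_neg, ← hz]
        rw [hfydef]
        show VGN_tf (L (fx p)) = VGN_tf (L (fx p'))
        rw [h5]
      obtain ⟨j, hj⟩ := VGN_nrm' 1 _ z (hlam z hz0 h3)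
      refine ⟨j, ?_⟩
      rw [mul_one]
      have h6 : VGN_tf z j = fy p j - fy p' j := by
        rw [hz, map_add, map_neg, hfydef]
        show VGN_tf (L (fx p)) j + -VGN_tf (L (fx p')) j = _
        ring
      rw [← h6]
      exact hj
    · intro w hw hwl
      have hw' : ∀ i, ∃ p ∈ N, fy p = w i := fun i => mem_image.1 (hw i)
      choose p hp hpw using hw'
      refine hLI (fun i => fz (p i)) (fun i => mem_image_of_mem fz (hp i)) ?_
      rw [Fintype.linearIndependent_iff] at hwl ⊢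
      intro g hg
      apply hwl g
      have h1 : ∑ i, g i • fx (p i) = 0 := by
        apply VGN_inj
        rw [map_sum, map_zero, ← hg]
        refine Finset.sum_congr rfl fun i _ => ?_
        rw [map_zsmul, hfzdef]
      have h2 := (hL2 g (fun i => fx (p i)) (fun i => hP _ (hp i))).2 h1
      have h3 : VGN_tf (∑ i, g i • L (fx (p i))) = 0 := by
        rw [h2, map_zero]
      rw [map_sum] at h3
      rw [← h3]
      refine Finset.sum_congr rfl fun i _ => ?_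
      rw [map_zsmul, ← hpw i, hfydef]

end Pool.Agent.RL
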